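import Mathlib
import Pool.Agent.H63.FBorel.Upper

/-!
There is a K-analytic space whose set of attainable complexities is not closed.
-/

namespace Pool.Agent.Results.MP_2e8740_gt.ComplNotClosed

open Set Topology Ordinal Pool.Agent.H63.FBorel

lemma omega_two_lt : (ω * 2 : Ordinal.{0}) < ω₁ :=
  Ordinal.isPrincipal_mul_omega 1 omega0_lt_omega_one
    (show (2 : Ordinal.{0}) < ω₁ from (natCast_lt_omega0 2).trans omega0_lt_omega_one)

lemma exists_least {Y : Type} [TopologicalSpace Y] [CompactSpace Y] [T2Space Y] {e : Sp → Y}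
    (he : IsEmbedding e) : ∃ α, IsLeast {β | FClass β (range e)} α ∧ α < ω * 2 := by
  obtain ⟨M, hM⟩ := upper e he
  have h1 : (ω + (2 * M + 1 : ℕ) : Ordinal.{0}) < ω * 2 := omega_add_lt _
  have hmem : (ω + (2 * M + 1 : ℕ) : Ordinal.{0}) ∈ {β | FClass β (range e)} :=
    Or.inl ⟨h1.trans omega_two_lt, hM⟩
  exact ⟨sInf {β | FClass β (range e)}, ⟨csInf_mem ⟨_, hmem⟩, fun b hb => csInf_le' hb⟩,
    lt_of_le_of_lt (csInf_le' hmem) h1⟩

lemma compl_lt {α : Ordinal.{0}} (hα : α ∈ ComplSet Sp) : α < ω * 2 := by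
  obtain ⟨Y, _, _, _, e, he, -, hl⟩ := hα
  obtain ⟨β, hβ, hlt⟩ := exists_least he
  rw [hl.unique hβ]; exact hlt

lemma compl_unbounded {γ : Ordinal.{0}} (hγ : γ < ω * 2) :
    ∃ α ∈ ComplSet Sp, γ < α ∧ α < ω * 2 := by
  obtain ⟨k, hk⟩ := lt_omega_two hγ
  obtain ⟨α, hα, hlt⟩ := exists_least (ek_embedding k)
  refine ⟨α, ⟨Yk k, inferInstance, inferInstance, inferInstance, ek k, ek_embedding k,
    ek_dense k, hα⟩, ?_, hlt⟩
  by_contra hle
  rcases hα.1 with ⟨-, h⟩ | ⟨h, -⟩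
  · exact not_FB ((not_lt.1 hle).trans hk) h
  · rw [h] at hlt
    exact absurd (hlt.trans omega_two_lt) (lt_irrefl _)

/-- The set of attainable complexities of a K-analytic space need not be closed in `[0, ω₁]`. -/
theorem result :
    ∃ (X : Type) (_ : TopologicalSpace X), T35Space X ∧ KAnalytic X ∧
      Order.IsSuccLimit (ω * 2 : Ordinal.{0}) ∧ (ω * 2 : Ordinal.{0}) < ω₁ ∧
      (∀ γ < ω * 2, ∃ α ∈ ComplSet X, γ < α ∧ α < ω * 2) ∧ ω * 2 ∉ ComplSet X ∧
      ¬ IsClosed {a : Set.Iic (ω₁ : Ordinal.{0}) | (a : Ordinal.{0}) ∈ ComplSet X} := by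
  have hnot : (ω * 2 : Ordinal.{0}) ∉ ComplSet Sp := fun h => lt_irrefl _ (compl_lt h)
  refine ⟨Sp, inferInstance, (ek_embedding 0).t35Space,
    ⟨Yk 0, inferInstance, inferInstance, inferInstance, ek 0, ek_embedding 0,
      suslin (ek 0) (ek_embedding 0)⟩, ?_, omega_two_lt, fun γ hγ => compl_unbounded hγ, hnot, ?_⟩
  · rw [omega_mul_two]
    exact isSuccLimit_add ω isSuccLimit_omega0
  · intro hcl
    have h1 : IsClosed ((↑) '' {a : Set.Iic (ω₁ : Ordinal.{0}) |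
        (a : Ordinal.{0}) ∈ ComplSet Sp} : Set Ordinal.{0}) :=
      (isClosed_Iic.isClosedEmbedding_subtypeVal.isClosed_iff_image_isClosed).1 hcl
    have h2 : ((↑) '' {a : Set.Iic (ω₁ : Ordinal.{0}) |
        (a : Ordinal.{0}) ∈ ComplSet Sp} : Set Ordinal.{0}) = ComplSet Sp := by
      ext α
      constructor
      · rintro ⟨a, ha, rfl⟩; exact ha
      · intro h
        exact ⟨⟨α, ((compl_lt h).trans omega_two_lt).le⟩, h, rfl⟩
    rw [h2] at h1
    apply hnot
    refine IsLUB.mem_of_isClosed (s := ComplSet Sp) ⟨fun α h => (compl_lt h).le, ?_⟩ ?_ h1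
    · intro β hβ
      by_contra hlt
      obtain ⟨α, h3, h4, -⟩ := compl_unbounded (not_le.1 hlt)
      exact absurd (hβ h3) (not_le.2 h4)
    · obtain ⟨α, h3, -, -⟩ := compl_unbounded (γ := 0) (by
        rw [omega_mul_two]; exact omega0_pos.trans_le le_self_add)
      exact ⟨α, h3⟩

end Pool.Agent.Results.MP_2e8740_gt.ComplNotClosed
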